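import Mathlib

set_option autoImplicit false

open Set Filter Topology Function

namespace Pool.Agent.C42e77

abbrev B : Type := ℕ → Bool

/-- cylinder -/
def Cyl (e : B) (l : ℕ) : Set B := {e' | ∀ i < l, e' i = e i}

lemma cyl_nhds (e : B) (l : ℕ) : Cyl e l ∈ 𝓝 e := by
  have : Cyl e l = ⋂ i ∈ Finset.range l, {e' : B | e' i = e i} := by
    ext e'
    simp [Cyl]
  rw [this]
  refine (biInter_finset_mem _).mpr fun i _ => ?_
  have hc : Continuous (fun e' : B => e' i) := continuous_apply i
  have h1 : {c : Bool | c = e i} ∈ 𝓝 (e i) := by rw [nhds_discrete]; exact rfl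
  exact hc.continuousAt h1

lemma cyl_basis (e : B) (U : Set B) (hU : U ∈ 𝓝 e) : ∃ l, Cyl e l ⊆ U := by
  rw [nhds_pi, Filter.mem_pi] at hU
  obtain ⟨I, hI, t, ht, hsub⟩ := hU
  obtain ⟨l, hl⟩ := hI.bddAbove
  refine ⟨l + 1, fun e' he' => hsub fun i hi => ?_⟩
  have := he' i (Nat.lt_succ_of_le (hl hi))
  rw [this]
  exact mem_of_mem_nhds (ht i)

/-- condensation points -/
lemma condense (A : Set B) (hA : ¬ A.Countable) :
    ∃ A' ⊆ A, A'.Nonempty ∧ ∀ p ∈ A', ∀ l : ℕ, ∃ p' ∈ A', p' ≠ p ∧ p' ∈ Cyl p l := by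
  set A' : Set B := {e ∈ A | ∀ U ∈ 𝓝 e, ¬ (U ∩ A).Countable} with hA'
  have hcount : (A \ A').Countable := by
    have hsub : A \ A' ⊆ ⋃ U ∈ {U ∈ TopologicalSpace.countableBasis B | (U ∩ A).Countable}, (U ∩ A) := by
      intro e he
      have h1 : ¬ (∀ U ∈ 𝓝 e, ¬ (U ∩ A).Countable) := fun h => he.2 ⟨he.1, h⟩
      push Not at h1
      obtain ⟨U, hU, hUc⟩ := h1
      obtain ⟨V, hV, heV, hVU⟩ := (TopologicalSpace.isBasis_countableBasis B).mem_nhds_iff.mp hU
      refine mem_biUnion (x := V) ⟨hV, ?_⟩ ⟨heV, he.1⟩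
      exact hUc.mono (inter_subset_inter_left _ hVU)
    refine Countable.mono hsub ?_
    refine Countable.biUnion ((TopologicalSpace.countable_countableBasis B).mono fun U hU => hU.1) ?_
    intro U hU
    exact hU.2
  have hA'sub : A' ⊆ A := fun e he => he.1
  refine ⟨A', hA'sub, ?_, ?_⟩
  · by_contra hne
    rw [not_nonempty_iff_eq_empty] at hne
    rw [hne, sdiff_empty] at hcount
    exact hA hcount
  · intro p hp l
    by_contra hcon
    push Not at hcon
    have h1 := hp.2 (Cyl p l) (cyl_nhds p l)
    apply h1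
    have : Cyl p l ∩ A ⊆ {p} ∪ (A \ A') := by
      rintro e ⟨he1, he2⟩
      by_cases heA : e ∈ A'
      · left
        by_contra hne
        exact hcon e heA hne he1
      · right
        exact ⟨he2, heA⟩
    exact ((countable_singleton p).union hcount).mono this

/-- one step of the construction -/
lemma step (A' : Set B) (b : Bool) (hb : ∀ e ∈ A', {n : ℕ | e n = b} ∈ (hyperfilter ℕ : Ultrafilter ℕ))
    (hA : ∀ p ∈ A', ∀ l : ℕ, ∃ p' ∈ A', p' ≠ p ∧ p' ∈ Cyl p l)
    (P : Finset B) (hP : ∀ p ∈ P, p ∈ A') (l : ℕ) :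
    ∃ (P' : Finset B) (j : ℕ), P ⊆ P' ∧ (∀ p ∈ P', p ∈ A') ∧ l ≤ j ∧ (∀ e ∈ P', e j = b) ∧
      (∀ p ∈ P, ∃ p' ∈ P', p' ≠ p ∧ p' ∈ Cyl p l) ∧ (∀ p' ∈ P', ∃ p ∈ P, p' ∈ Cyl p l) := by
  classical
  have hA2 : ∀ p : B, ∃ p' : B, p ∈ A' → (p' ∈ A' ∧ p' ≠ p ∧ p' ∈ Cyl p l) := by
    intro p
    by_cases hp : p ∈ A'
    · obtain ⟨p', h⟩ := hA p hp l
      exact ⟨p', fun _ => h⟩
    · exact ⟨p, fun h => absurd h hp⟩
  choose F hF using hA2
  set P' : Finset B := P ∪ P.image F with hP'
  have hP'A : ∀ p ∈ P', p ∈ A' := by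
    intro p hp
    rcases Finset.mem_union.mp hp with h | h
    · exact hP p h
    · obtain ⟨q, hq, rfl⟩ := Finset.mem_image.mp h
      exact (hF q (hP q hq)).1
  have hinter : (⋂ e ∈ P', {n : ℕ | e n = b}) ∈ (hyperfilter ℕ : Ultrafilter ℕ) := by
    have : (⋂ e ∈ P', {n : ℕ | e n = b}) ∈ ((hyperfilter ℕ : Ultrafilter ℕ) : Filter ℕ) :=
      (biInter_finset_mem P').mpr fun e he => hb e (hP'A e he)
    exact this
  have hge : {n : ℕ | l ≤ n} ∈ ((hyperfilter ℕ : Ultrafilter ℕ) : Filter ℕ) := by
    apply hyperfilter_le_cofinite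
    rw [mem_cofinite]
    refine (finite_lt_nat l).subset fun n hn => ?_
    simpa using hn
  obtain ⟨j, hj⟩ := (hyperfilter ℕ : Ultrafilter ℕ).nonempty_of_mem (inter_mem hinter hge)
  refine ⟨P', j, Finset.subset_union_left, hP'A, hj.2, ?_, ?_, ?_⟩
  · intro e he
    have := hj.1
    simp only [mem_iInter] at this
    exact this e he
  · intro p hp
    obtain ⟨_, h2, h3⟩ := hF p (hP p hp)
    exact ⟨F p, Finset.mem_union_right _ (Finset.mem_image_of_mem F hp), h2, h3⟩
  · intro p' hp'
    rcases Finset.mem_union.mp hp' with h | h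
    · exact ⟨p', h, fun i _ => rfl⟩
    · obtain ⟨q, hq, rfl⟩ := Finset.mem_image.mp h
      exact ⟨q, hq, (hF q (hP q hq)).2.2⟩

/-- Main combinatorial statement: every uncountable closed set of sequences contains a nonempty
perfect set all of whose members are constant, with the same value, on a common infinite set. -/
lemma common (C : Set B) (hC : IsClosed C) (hunc : ¬ C.Countable) :
    ∃ (b : Bool) (j : ℕ → ℕ) (D : Set B), StrictMono j ∧ Perfect D ∧ D.Nonempty ∧ D ⊆ C ∧
      ∀ e ∈ D, ∀ k, e (j k) = b := by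
  classical
  -- choose `b`
  obtain ⟨b, hb⟩ : ∃ b : Bool, ¬ {e ∈ C | {n : ℕ | e n = b} ∈ (hyperfilter ℕ : Ultrafilter ℕ)}.Countable := by
    by_contra hcon
    push Not at hcon
    apply hunc
    refine ((hcon true).union (hcon false)).mono fun e he => ?_
    rcases (hyperfilter ℕ : Ultrafilter ℕ).mem_or_compl_mem {n : ℕ | e n = true} with h | h
    · left; exact ⟨he, h⟩
    · right
      refine ⟨he, ?_⟩
      convert h using 1
      ext n
      simp
  obtain ⟨A', hA'sub, ⟨a₀, ha₀⟩, hA'⟩ := condense _ hb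
  have hbA : ∀ e ∈ A', {n : ℕ | e n = b} ∈ (hyperfilter ℕ : Ultrafilter ℕ) := fun e he => (hA'sub he).2
  -- states
  let St : Type := {s : Finset B × ℕ // ∀ p ∈ s.1, p ∈ A'}
  have hstep : ∀ s : St, ∃ s' : St, s.1.1 ⊆ s'.1.1 ∧ s.1.2 < s'.1.2 ∧
      (∀ e ∈ s'.1.1, e (s'.1.2 - 1) = b) ∧
      (∀ p ∈ s.1.1, ∃ p' ∈ s'.1.1, p' ≠ p ∧ p' ∈ Cyl p s.1.2) ∧
      (∀ p' ∈ s'.1.1, ∃ p ∈ s.1.1, p' ∈ Cyl p s.1.2) := by
    intro s
    obtain ⟨P', j, h1, h2, h3, h4, h5, h6⟩ := step A' b hbA hA' s.1.1 s.2 s.1.2
    exact ⟨⟨(P', j + 1), h2⟩, h1, by simp only; omega, by simpa using h4, h5, h6⟩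
  choose nxt hn1 hn2 hn3 hn4 hn5 using hstep
  let s₀ : St := ⟨({a₀}, 0), by simpa using ha₀⟩
  let st : ℕ → St := fun k => Nat.rec s₀ (fun _ s => nxt s) k
  have hst : ∀ k, st (k + 1) = nxt (st k) := fun k => rfl
  let P : ℕ → Finset B := fun k => (st k).1.1
  let l : ℕ → ℕ := fun k => (st k).1.2
  have hPA : ∀ k, ∀ p ∈ P k, p ∈ A' := fun k => (st k).2
  have hPmono : ∀ k, P k ⊆ P (k + 1) := fun k => hn1 (st k)
  have hPmono' : Monotone P := monotone_nat_of_le_succ hPmono
  have hlmono : StrictMono l := strictMono_nat_of_lt_succ fun k => hn2 (st k)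
  let j : ℕ → ℕ := fun k => l (k + 1) - 1
  have hjmono : StrictMono j := by
    refine strictMono_nat_of_lt_succ fun k => ?_
    have h1 : l k < l (k + 1) := hlmono (Nat.lt_succ_self k)
    have h2 : l (k + 1) < l (k + 2) := hlmono (Nat.lt_succ_self (k + 1))
    show l (k + 1) - 1 < l (k + 2) - 1
    omega
  have hval : ∀ m, ∀ e ∈ P m, ∀ k < m, e (j k) = b := by
    intro m
    induction m with
    | zero => intro e _ k hk; omega
    | succ m ih =>
      intro e he k hk
      rcases Nat.lt_succ_iff_lt_or_eq.mp hk with hk' | hk'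
      · obtain ⟨p, hp, hpe⟩ := hn5 (st m) e he
        have h1 : l (k + 1) ≤ l m := hlmono.monotone (Nat.succ_le_of_lt hk')
        have h2 : l k < l (k + 1) := hlmono (Nat.lt_succ_self k)
        have h3 : j k < l m := by show l (k + 1) - 1 < l m; omega
        rw [hpe (j k) h3]
        exact ih p hp k hk'
      · subst hk'
        exact hn3 (st k) e he
  let Q : Set B := ⋃ k, (P k : Set B)
  have hQval : ∀ e ∈ Q, ∀ k, e (j k) = b := by
    intro e he k
    obtain ⟨m, hm⟩ := mem_iUnion.mp he
    have : e ∈ P (max m (k + 1)) := hPmono' (le_max_left _ _) hm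
    exact hval _ e this k (lt_of_lt_of_le (Nat.lt_succ_self k) (le_max_right _ _))
  have hQpre : Preperfect Q := by
    rw [preperfect_iff_nhds]
    intro e he U hU
    obtain ⟨L, hL⟩ := cyl_basis e U hU
    obtain ⟨m, hm⟩ := mem_iUnion.mp he
    have hm' : e ∈ P (max m L) := hPmono' (le_max_left _ _) hm
    obtain ⟨p', hp', hne, hcyl⟩ := hn4 (st (max m L)) e hm'
    refine ⟨p', ⟨hL ?_, mem_iUnion.mpr ⟨max m L + 1, hp'⟩⟩, hne⟩
    intro i hi
    apply hcyl i
    have : max m L ≤ l (max m L) := hlmono.le_apply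
    have : L ≤ max m L := le_max_right _ _
    show i < l (max m L)
    omega
  refine ⟨b, j, closure Q, hjmono, hQpre.perfect_closure, ?_, ?_, ?_⟩
  · refine ⟨a₀, subset_closure (mem_iUnion.mpr ⟨0, ?_⟩)⟩
    show a₀ ∈ ((({a₀} : Finset B)) : Set B)
    simp
  · refine closure_minimal (fun e he => ?_) hC
    obtain ⟨m, hm⟩ := mem_iUnion.mp he
    exact (hA'sub (hPA m e hm)).1
  · have hclosed : IsClosed {e : B | ∀ k, e (j k) = b} := by
      have : {e : B | ∀ k, e (j k) = b} = ⋂ k, {e : B | e (j k) = b} := by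
        ext e; simp
      rw [this]
      refine isClosed_iInter fun k => ?_
      exact isClosed_eq (continuous_apply _) continuous_const
    exact fun e he => closure_minimal (fun e he => hQval e he) hclosed he

/-! ### subsums -/

/-- the subsum map -/
noncomputable def subsum (x : ℕ → ℝ) (e : ℕ → Bool) : ℝ := ∑' n, if e n then x n else 0

lemma summ (x : ℕ → ℝ) (hpos : ∀ n, 0 < x n) (hs : Summable x) (e : B) :
    Summable (fun n => if e n then x n else 0) := by
  refine Summable.of_nonneg_of_le (fun n => ?_) (fun n => ?_) hs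
  · split_ifs
    · exact (hpos n).le
    · exact le_rfl
  · split_ifs
    · exact le_rfl
    · exact (hpos n).le

lemma subsum_cont (x : ℕ → ℝ) (hpos : ∀ n, 0 < x n) (hs : Summable x) : Continuous (subsum x) := by
  unfold subsum
  refine continuous_tsum (u := x) (fun n => ?_) hs (fun n e => ?_)
  · have : Continuous (fun b : Bool => if b then x n else 0) := continuous_of_discreteTopology
    exact this.comp (continuous_apply n)
  · split_ifs
    · rw [Real.norm_eq_abs, abs_of_pos (hpos n)]
    · rw [norm_zero]; exact (hpos n).le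

/-- if each term exceeds three times the next then subsums are distinct -/
lemma subsum_inj (y : ℕ → ℝ) (hpos : ∀ n, 0 < y n) (h3 : ∀ n, 3 * y (n + 1) < y n) (hs : Summable y) :
    Injective (subsum y) := by
  have htail : ∀ n, ∑' m, y (m + (n + 1)) < y n := by
    intro n
    have hle : ∀ m, y (m + (n + 1)) ≤ (1 / 3 : ℝ) ^ (m + 1) * y n := by
      intro m
      induction m with
      | zero =>
        have := h3 n
        simp only [zero_add, pow_one]
        linarith
      | succ m ih =>
        have := h3 (m + (n + 1))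
        rw [show m + 1 + (n + 1) = m + (n + 1) + 1 by ring, pow_succ]
        linarith
    have hg : Summable (fun m : ℕ => (1 / 3 : ℝ) ^ (m + 1) * y n) :=
      ((summable_nat_add_iff 1).mpr (summable_geometric_of_lt_one (by norm_num)
        (by norm_num : (1 / 3 : ℝ) < 1))).mul_right _
    have h1 := ((summable_nat_add_iff (n + 1)).mpr hs).tsum_le_tsum hle hg
    have h2 : ∑' m : ℕ, (1 / 3 : ℝ) ^ (m + 1) * y n = y n / 2 := by
      rw [tsum_mul_right]
      have : ∑' m : ℕ, (1 / 3 : ℝ) ^ (m + 1) = 1 / 2 := by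
        simp_rw [pow_succ]
        rw [tsum_mul_right, tsum_geometric_of_lt_one (by norm_num) (by norm_num)]
        norm_num
      rw [this]; ring
    have := hpos n
    linarith
  intro e e' hee
  by_contra hne
  -- first difference
  have hex : ∃ n, e n ≠ e' n := by
    by_contra hcon
    push Not at hcon
    exact hne (funext hcon)
  obtain ⟨n, hdiff, hsame⟩ : ∃ n, e n ≠ e' n ∧ ∀ m < n, e m = e' m := by
    classical
    refine ⟨Nat.find hex, Nat.find_spec hex, fun m hm => ?_⟩
    have := Nat.find_min hex hm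
    push Not at this
    exact this
  have key : ∀ (f g : B), (∀ m < n, f m = g m) → f n = true → g n = false → subsum y g < subsum y f := by
    intro f g hfg hf hg
    unfold subsum
    have a1 := (summ y hpos hs f).sum_add_tsum_nat_add (n + 1)
    have a2 := (summ y hpos hs g).sum_add_tsum_nat_add (n + 1)
    rw [← a1, ← a2, Finset.sum_range_succ, Finset.sum_range_succ]
    have e1 : ∑ m ∈ Finset.range n, (if f m then y m else 0) = ∑ m ∈ Finset.range n, (if g m then y m else 0) :=
      Finset.sum_congr rfl fun m hm => by rw [hfg m (Finset.mem_range.mp hm)]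
    rw [e1, hf, hg]
    simp only [if_true, Bool.false_eq_true, if_false]
    have h1 : 0 ≤ ∑' m, (if f (m + (n + 1)) then y (m + (n + 1)) else 0) :=
      tsum_nonneg fun m => by
        split_ifs
        · exact (hpos _).le
        · exact le_rfl
    have h2 : ∑' m, (if g (m + (n + 1)) then y (m + (n + 1)) else 0) ≤ ∑' m, y (m + (n + 1)) := by
      have hs1 : Summable (fun m => y (m + (n + 1))) := (summable_nat_add_iff (n + 1)).mpr hs
      have hs2 : Summable (fun m => if g (m + (n + 1)) then y (m + (n + 1)) else 0) :=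
        (summable_nat_add_iff (f := fun m => if g m then y m else 0) (n + 1)).mpr (summ y hpos hs g)
      refine hs2.tsum_le_tsum (fun m => ?_) hs1
      split_ifs
      · exact le_rfl
      · exact (hpos _).le
    have h3 := htail n
    linarith
  rcases Bool.eq_false_or_eq_true (e n) with h | h
  · have h' : e' n = false := by
      rcases Bool.eq_false_or_eq_true (e' n) with h' | h'
      · exact absurd (h.trans h'.symm) hdiff
      · exact h'
    exact absurd hee (key e e' hsame h h').ne'
  · have h' : e' n = true := by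
      rcases Bool.eq_false_or_eq_true (e' n) with h' | h'
      · exact h'
      · exact absurd (h.trans h'.symm) hdiff
    exact absurd hee (key e' e (fun m hm => (hsame m hm).symm) h' h).ne

/-- choose a sparse subsequence -/
lemma sparse (x : ℕ → ℝ) (hpos : ∀ n, 0 < x n) (hs : Summable x) (j : ℕ → ℕ) (hj : StrictMono j) :
    ∃ i : ℕ → ℕ, StrictMono i ∧ ∀ n, 3 * x (j (i (n + 1))) < x (j (i n)) := by
  have h0 : Tendsto (fun n => x (j n)) atTop (𝓝 0) := hs.tendsto_atTop_zero.comp hj.tendsto_atTop
  have hstep : ∀ n : ℕ, ∃ m : ℕ, n < m ∧ 3 * x (j m) < x (j n) := by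
    intro n
    have h1 : ∀ᶠ m in atTop, x (j m) < x (j n) / 3 :=
      h0.eventually_lt_const (by have := hpos (j n); linarith)
    obtain ⟨m, hm, hm2⟩ := (h1.and (eventually_gt_atTop n)).exists
    exact ⟨m, hm2, by linarith⟩
  choose F hF1 hF2 using hstep
  refine ⟨fun k => Nat.rec 0 (fun _ s => F s) k, strictMono_nat_of_lt_succ fun k => hF1 _, fun n => hF2 _⟩

/-- Main theorem. -/
theorem main_thm (x : ℕ → ℝ) (hpos : ∀ n, 0 < x n) (hs : Summable x) (t : ℝ)
    (ht : Cardinal.mk {e : ℕ → Bool // subsum x e = t} = Cardinal.continuum) :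
    ∃ G : (ℕ → Bool) → ℝ, Continuous G ∧ Injective G ∧
      ∀ h, Cardinal.mk {e : ℕ → Bool // subsum x e = G h} = Cardinal.continuum := by
  classical
  set C : Set B := {e | subsum x e = t} with hC
  have hCc : IsClosed C := isClosed_eq (subsum_cont x hpos hs) continuous_const
  have hCu : ¬ C.Countable := by
    intro hc
    have h1 := Cardinal.le_aleph0_iff_set_countable.mpr hc
    have h2 : Cardinal.mk ↥C = Cardinal.continuum := ht
    rw [h2] at h1
    exact absurd h1 (not_le.mpr Cardinal.aleph0_lt_continuum)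
  obtain ⟨b, j, D, hj, hDp, hDne, hDC, hDb⟩ := common C hCc hCu
  obtain ⟨i, hi, hi3⟩ := sparse x hpos hs j hj
  set k : ℕ → ℕ := fun n => j (i n) with hk
  have hkm : StrictMono k := hj.comp hi
  set y : ℕ → ℝ := fun n => x (k n) with hy
  have hys : Summable y := hs.comp_injective hkm.injective
  have hyinj := subsum_inj y (fun n => hpos _) hi3 hys
  have hycont := subsum_cont y (fun n => hpos _) hys
  set s : ℝ := if b then -1 else 1 with hsd
  have hs0 : s ≠ 0 := by rw [hsd]; split_ifs <;> norm_num
  refine ⟨fun h => t + s * subsum y h, by fun_prop, ?_, ?_⟩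
  · intro h h' hh
    apply hyinj
    have : s * subsum y h = s * subsum y h' := by linarith
    exact mul_left_cancel₀ hs0 this
  · intro h
    apply le_antisymm
    · calc Cardinal.mk {e : ℕ → Bool // subsum x e = t + s * subsum y h}
          ≤ Cardinal.mk (ℕ → Bool) := Cardinal.mk_subtype_le _
        _ = Cardinal.continuum := by simp
    · -- an injection of `D` into the fibre
      obtain ⟨φ, hφ1, hφ3⟩ : ∃ φ : (ℕ → Bool) → B, range φ ⊆ D ∧ Injective φ := by
        let := TopologicalSpace.upgradeIsCompletelyMetrizable B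
        obtain ⟨φ, hφ1, _, hφ3⟩ := hDp.exists_nat_bool_injection hDne
        exact ⟨φ, hφ1, hφ3⟩
      -- flip
      set fl : B → B := fun e n => if (∃ m, k m = n ∧ h m = true) then !b else e n with hfl
      have hflinj : ∀ e ∈ D, ∀ e' ∈ D, fl e = fl e' → e = e' := by
        intro e he e' he' hee
        funext n
        by_cases hn : ∃ m, k m = n ∧ h m = true
        · obtain ⟨m, hm, _⟩ := hn
          rw [← hm, hk]
          simp only
          rw [hDb e he, hDb e' he']
        · have := congrFun hee n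
          simp only [hfl, if_neg hn] at this
          exact this
      have hflval : ∀ e ∈ D, subsum x (fl e) = t + s * subsum y h := by
        intro e he
        have he1 : subsum x e = t := hDC he
        rw [← he1]
        unfold subsum
        rw [← tsum_extend_zero hkm.injective (fun m => if h m then y m else 0), ← tsum_mul_left]
        have hsum2 : Summable (fun n => s * extend k (fun m => if h m then y m else 0) 0 n) := by
          apply Summable.mul_left
          rw [summable_extend_zero hkm.injective]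
          exact summ y (fun n => hpos _) hys h
        rw [← (summ x hpos hs e).tsum_add hsum2]
        refine tsum_congr fun n => ?_
        by_cases hn : ∃ m, k m = n
        · obtain ⟨m, rfl⟩ := hn
          rw [hkm.injective.extend_apply]
          have hen : e (k m) = b := hDb e he (i m)
          by_cases hm : h m = true
          · have h1 : fl e (k m) = !b := by
              simp only [hfl]
              rw [if_pos ⟨m, rfl, hm⟩]
            rw [h1, hen, hm]
            cases b <;> simp [hsd, hy]
          · have h1 : fl e (k m) = e (k m) := by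
              simp only [hfl]
              rw [if_neg]
              rintro ⟨m', hm', hm2⟩
              rw [hkm.injective hm'] at hm2
              exact hm hm2
            rw [h1, if_neg hm, mul_zero, add_zero]
        · have h1 : fl e n = e n := by
            simp only [hfl]
            rw [if_neg]
            rintro ⟨m, hm, _⟩
            exact hn ⟨m, hm⟩
          rw [extend_apply' _ _ _ hn, h1]
          simp
      have hmem : ∀ c : ℕ → Bool, φ c ∈ D := fun c => hφ1 (mem_range_self c)
      let ψ : (ℕ → Bool) → {e : ℕ → Bool // subsum x e = t + s * subsum y h} :=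
        fun c => ⟨fl (φ c), hflval _ (hmem c)⟩
      have hψ : Injective ψ := by
        intro c c' hcc
        apply hφ3
        exact hflinj _ (hmem c) _ (hmem c') (congrArg Subtype.val hcc)
      calc Cardinal.continuum = Cardinal.mk (ℕ → Bool) := by simp
        _ ≤ _ := Cardinal.mk_le_of_injective hψ

end Pool.Agent.C42e77
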